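import Mathlib

/-! Spaces of forms killed by powers of directional derivatives. -/

set_option autoImplicit false
set_option linter.unusedSectionVars false

open MvPolynomial Module

namespace Q41.FP

variable {K : Type*} [Field K] {σ : Type*} [Fintype σ] [DecidableEq σ]

/-- the derivative in the direction `v` -/
noncomputable def Dv (v : σ → K) : Derivation K (MvPolynomial σ K) (MvPolynomial σ K) :=
  mkDerivation K fun i => C (v i)

theorem Dv_X (v : σ → K) (i : σ) : Dv v (X i) = C (v i) := mkDerivation_X _ _ _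

theorem der_sum {ι : Type*} (s : Finset ι)
    (D : ι → Derivation K (MvPolynomial σ K) (MvPolynomial σ K)) (f : MvPolynomial σ K) :
    (∑ i ∈ s, D i) f = ∑ i ∈ s, D i f := by
  classical
  induction s using Finset.induction_on with
  | empty => simp
  | insert a s ha ih => rw [Finset.sum_insert ha, Finset.sum_insert ha, Derivation.add_apply, ih]

theorem Dv_eq (v : σ → K) (f : MvPolynomial σ K) : Dv v f = ∑ i, v i • pderiv i f := by
  have h : Dv v = ∑ i, v i • (pderiv i : Derivation K (MvPolynomial σ K) (MvPolynomial σ K)) := by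
    apply derivation_ext
    intro j
    rw [Dv_X, der_sum]
    rw [Finset.sum_eq_single j]
    · rw [Derivation.coe_smul, Pi.smul_apply, pderiv_X_self, smul_eq_C_mul, mul_one]
    · intro i _ hi
      rw [Derivation.coe_smul, Pi.smul_apply, pderiv_X_of_ne hi.symm, smul_zero]
    · intro h
      exact absurd (Finset.mem_univ j) h
  rw [h, der_sum]
  rfl

theorem Dv_single (i : σ) : Dv (Pi.single i (1 : K)) = pderiv i := by
  apply derivation_ext
  intro j
  rw [Dv_X, pderiv_X]
  by_cases h : j = i
  · subst h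
    simp
  · simp only [Pi.single_apply, if_neg h, map_zero]

theorem Dv_comm (v w : σ → K) (f : MvPolynomial σ K) : Dv v (Dv w f) = Dv w (Dv v f) := by
  have h : ⁅Dv v, Dv w⁆ = 0 := by
    apply derivation_ext
    intro j
    rw [Derivation.commutator_apply, Dv_X, Dv_X, derivation_C, derivation_C]
    simp
  have h2 := congrArg (fun D : Derivation K (MvPolynomial σ K) (MvPolynomial σ K) => D f) h
  simp only [Derivation.commutator_apply] at h2
  exact sub_eq_zero.mp h2

theorem Dv_hom {v : σ → K} {f : MvPolynomial σ K} {x : ℕ} (h : f.IsHomogeneous (x + 1)) :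
    (Dv v f).IsHomogeneous x := by
  rw [Dv_eq]
  apply IsHomogeneous.sum
  intro i _
  rw [smul_eq_C_mul]
  exact (h.pderiv (i := i)).C_mul _

theorem Dv_hom0 {v : σ → K} {f : MvPolynomial σ K} (h : f.IsHomogeneous 0) : Dv v f = 0 := by
  rw [← totalDegree_zero_iff_isHomogeneous, totalDegree_eq_zero_iff_eq_C] at h
  rw [h, derivation_C]

/-- the same as a linear map -/
noncomputable def T (v : σ → K) : MvPolynomial σ K →ₗ[K] MvPolynomial σ K := (Dv v).toLinearMap

theorem T_apply (v : σ → K) (f : MvPolynomial σ K) : T v f = Dv v f := rfl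

theorem T_comm (v w : σ → K) : Commute (T v) (T w) := by
  refine LinearMap.ext fun f => ?_
  exact Dv_comm v w f

theorem T_pow_hom {v : σ → K} {f : MvPolynomial σ K} {x : ℕ} (k : ℕ)
    (h : f.IsHomogeneous (x + k)) : ((T v ^ k) f).IsHomogeneous x := by
  induction k generalizing f with
  | zero => simpa using h
  | succ k ih =>
    rw [pow_succ]
    exact ih (Dv_hom h)

theorem T_pow_low {v : σ → K} {f : MvPolynomial σ K} {x k : ℕ} (hk : x < k)
    (h : f.IsHomogeneous x) : (T v ^ k) f = 0 := by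
  obtain ⟨j, rfl⟩ := Nat.exists_eq_add_of_lt hk
  have e : x + j + 1 = (j + 1) + x := by ring
  rw [e, pow_add, pow_succ]
  change (T v ^ j) (T v ((T v ^ x) f)) = 0
  rw [T_apply, Dv_hom0 (T_pow_hom x (by simpa using h)), map_zero]

/-- the forms of degree `x` killed by the `A`-th powers of the derivatives in the directions `P` -/
noncomputable def V (A : ℕ) (P : Set (σ → K)) (x : ℕ) : Submodule K (MvPolynomial σ K) where
  carrier := {f | f.IsHomogeneous x ∧ ∀ q ∈ P, (T q ^ A) f = 0}
  add_mem' ha hb := ⟨ha.1.add hb.1, fun q hq => by rw [map_add, ha.2 q hq, hb.2 q hq, add_zero]⟩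
  zero_mem' := ⟨isHomogeneous_zero _ _ _, fun q _ => map_zero _⟩
  smul_mem' c f hf := ⟨by rw [smul_eq_C_mul]; exact hf.1.C_mul _, fun q hq => by
    rw [map_smul, hf.2 q hq, smul_zero]⟩

variable {A : ℕ} {P : Set (σ → K)} {x : ℕ} {f : MvPolynomial σ K} {q : σ → K}

theorem mem_V : f ∈ V A P x ↔ f.IsHomogeneous x ∧ ∀ q ∈ P, (T q ^ A) f = 0 := Iff.rfl

theorem V_le (A : ℕ) (P : Set (σ → K)) (x : ℕ) : V A P x ≤ homogeneousSubmodule σ K x :=
  fun _ hf => hf.1

instance finH (x : ℕ) : FiniteDimensional K (homogeneousSubmodule σ K x) :=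
  Module.Finite.iff_fg.mpr (homogeneousSubmodule_fg σ K x)

instance finV (A : ℕ) (P : Set (σ → K)) (x : ℕ) : FiniteDimensional K (V A P x) :=
  Submodule.finiteDimensional_of_le (V_le A P x)

theorem V_anti {P Q : Set (σ → K)} (h : P ⊆ Q) : V A Q x ≤ V A P x := fun _ hf =>
  ⟨hf.1, fun q hq => hf.2 q (h hq)⟩

theorem V_low (h : x < A) : V A P x = V A (∅ : Set (σ → K)) x := by
  apply le_antisymm (V_anti (Set.empty_subset _))
  intro f hf
  exact ⟨hf.1, fun q _ => T_pow_low h hf.1⟩

theorem T_pow_mem (v : σ → K) (k : ℕ) (hf : f ∈ V A P (x + k)) : (T v ^ k) f ∈ V A P x := by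
  refine ⟨T_pow_hom k hf.1, fun q hq => ?_⟩
  have h : Commute (T q ^ A) (T v ^ k) := ((T_comm q v).pow_left A).pow_right k
  have h2 := congrArg (fun L : MvPolynomial σ K →ₗ[K] MvPolynomial σ K => L f) h.eq
  change (T q ^ A) ((T v ^ k) f) = (T v ^ k) ((T q ^ A) f) at h2
  rw [h2, hf.2 q hq, map_zero]

theorem V_insert : V A (insert q P) x = V A P x ⊓ LinearMap.ker (T q ^ A) := by
  ext f
  simp only [mem_V, Set.mem_insert_iff, forall_eq_or_imp, Submodule.mem_inf, LinearMap.mem_ker]
  tauto

/-- rank and nullity -/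
theorem rn_aux (L : MvPolynomial σ K →ₗ[K] MvPolynomial σ K) (V : Submodule K (MvPolynomial σ K))
    [FiniteDimensional K V] :
    finrank K (V.map L) + finrank K (V ⊓ LinearMap.ker L : Submodule K (MvPolynomial σ K)) =
      finrank K V := by
  have h := LinearMap.finrank_range_add_finrank_ker (L.domRestrict V)
  rw [LinearMap.range_domRestrict, LinearMap.ker_domRestrict] at h
  have e : finrank K (V ⊓ LinearMap.ker L : Submodule K (MvPolynomial σ K)) =
      finrank K ((LinearMap.ker L).comap V.subtype) := by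
    rw [← Submodule.map_comap_subtype]
    exact (Submodule.equivMapOfInjective V.subtype V.injective_subtype _).finrank_eq.symm
  rw [e]
  exact h

theorem rn_le : finrank K (V A P (x + A)) ≤
    finrank K (V A P x) + finrank K (V A (insert q P) (x + A)) := by
  have h := rn_aux (T q ^ A) (V A P (x + A))
  rw [← V_insert] at h
  have h2 : finrank K ((V A P (x + A)).map (T q ^ A)) ≤ finrank K (V A P x) := by
    apply Submodule.finrank_mono
    rintro _ ⟨f, hf, rfl⟩
    exact T_pow_mem q A hf
  omega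

theorem rn_eq (hs : ∀ f ∈ V A P x, ∃ g ∈ V A P (x + A), (T q ^ A) g = f) :
    finrank K (V A P (x + A)) =
    finrank K (V A P x) + finrank K (V A (insert q P) (x + A)) := by
  have h := rn_aux (T q ^ A) (V A P (x + A))
  rw [← V_insert] at h
  have h2 : (V A P (x + A)).map (T q ^ A) = V A P x := by
    apply le_antisymm
    · rintro _ ⟨f, hf, rfl⟩
      exact T_pow_mem q A hf
    · intro f hf
      obtain ⟨g, hg, rfl⟩ := hs f hf
      exact ⟨g, hg, rfl⟩
  rw [h2] at h
  omega

theorem surj_pow (k : ℕ)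
    (hs : ∀ y, x ≤ y → y < x + k → ∀ f ∈ V A P y, ∃ g ∈ V A P (y + 1), T q g = f) :
    ∀ f ∈ V A P x, ∃ g ∈ V A P (x + k), (T q ^ k) g = f := by
  induction k with
  | zero => exact fun f hf => ⟨f, hf, rfl⟩
  | succ k ih =>
    intro f hf
    obtain ⟨g, hg, hgf⟩ := ih (fun y h1 h2 => hs y h1 (by omega)) f hf
    obtain ⟨g', hg', hgg⟩ := hs (x + k) (by omega) (by omega) g hg
    refine ⟨g', hg', ?_⟩
    rw [pow_succ]
    change (T q ^ k) (T q g') = f
    rw [hgg, hgf]

end Q41.FP
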