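import Pool.Agent.Q41.FP.Basic

/-! Coordinate directions: integration, and the weak Lefschetz property. -/

set_option autoImplicit false
set_option linter.unusedSectionVars false

open MvPolynomial Module

namespace Q41.FP

variable {K : Type*} [Field K] [CharZero K] {σ : Type*} [Fintype σ] [DecidableEq σ]

/-- integration with respect to a variable -/
noncomputable def Jn (i : σ) : MvPolynomial σ K →ₗ[K] MvPolynomial σ K :=
  (basisMonomials σ K).constr K fun s => monomial (s + Finsupp.single i 1) ((s i + 1 : K)⁻¹)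

theorem Jn_monomial (i : σ) (s : σ →₀ ℕ) (a : K) :
    Jn i (monomial s a) = monomial (s + Finsupp.single i 1) (a * (s i + 1 : K)⁻¹) := by
  have h : (monomial s a : MvPolynomial σ K) = a • basisMonomials σ K s := by
    rw [coe_basisMonomials, smul_monomial, smul_eq_mul, mul_one]
  rw [h, map_smul]
  unfold Jn
  rw [Basis.constr_basis, smul_monomial, smul_eq_mul]

theorem pderiv_Jn (i : σ) (f : MvPolynomial σ K) : pderiv i (Jn i f) = f := by
  induction f using MvPolynomial.induction_on' with
  | monomial s a =>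
    rw [Jn_monomial, pderiv_monomial, add_tsub_cancel_right]
    congr 1
    have h : (s i + 1 : K) ≠ 0 := by exact_mod_cast Nat.succ_ne_zero (s i)
    simp only [Finsupp.add_apply, Finsupp.single_eq_same]
    push_cast
    field_simp
  | add p q hp hq => rw [map_add, map_add, hp, hq]

theorem pderiv_Jn_ne {i k : σ} (hk : k ≠ i) (f : MvPolynomial σ K) :
    pderiv k (Jn i f) = Jn i (pderiv k f) := by
  induction f using MvPolynomial.induction_on' with
  | monomial s a =>
    rw [Jn_monomial, pderiv_monomial, pderiv_monomial, Jn_monomial]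
    have e1 : (s + Finsupp.single i 1 : σ →₀ ℕ) k = s k := by
      simp [Finsupp.single_eq_of_ne hk]
    have e2 : (s - Finsupp.single k 1 : σ →₀ ℕ) i = s i := by
      simp [Finsupp.single_eq_of_ne hk.symm]
    rw [e1, e2]
    by_cases h : s k = 0
    · rw [h]
      simp
    · have e3 : s + Finsupp.single i 1 - Finsupp.single k 1 =
          s - Finsupp.single k 1 + Finsupp.single i 1 := by
        have : Finsupp.single k 1 ≤ s := by
          rw [Finsupp.single_le_iff]
          omega
        exact tsub_add_eq_add_tsub this |>.symm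
      rw [e3]
      congr 1
      ring
  | add p q hp hq => simp only [map_add, hp, hq]

theorem Jn_hom {i : σ} {f : MvPolynomial σ K} {x : ℕ} (h : f.IsHomogeneous x) :
    (Jn i f).IsHomogeneous (x + 1) := by
  rw [← f.support_sum_monomial_coeff, map_sum]
  apply IsHomogeneous.sum
  intro s hs
  rw [Jn_monomial]
  apply isHomogeneous_monomial
  have h2 : s.degree = x := by
    rw [Finsupp.degree_eq_weight_one]
    exact h (mem_support_iff.mp hs)
  rw [map_add, h2, Finsupp.degree_single]

/-- the coordinate directions in the set `S` -/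
def E (S : Set σ) : Set (σ → K) := {v | ∃ i ∈ S, v = Pi.single i 1}

theorem surj_coord {A x : ℕ} {S : Set σ} {i : σ} (hi : i ∉ S) :
    ∀ f ∈ V A (E S : Set (σ → K)) x, ∃ g ∈ V A (E S : Set (σ → K)) (x + 1),
      T (Pi.single i (1 : K)) g = f := by
  intro f hf
  refine ⟨Jn i f, ⟨Jn_hom hf.1, ?_⟩, ?_⟩
  · rintro _ ⟨k, hk, rfl⟩
    have hki : k ≠ i := by rintro rfl; exact hi hk
    have h : ∀ (n : ℕ) (g : MvPolynomial σ K), (T (Pi.single k (1 : K)) ^ n) (Jn i g) =
        Jn i ((T (Pi.single k (1 : K)) ^ n) g) := by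
      intro n
      induction n with
      | zero => intro g; rfl
      | succ n ih =>
        intro g
        rw [pow_succ]
        change (T (Pi.single k (1 : K)) ^ n) (T (Pi.single k (1 : K)) (Jn i g)) =
          Jn i ((T (Pi.single k (1 : K)) ^ n) (T (Pi.single k (1 : K)) g))
        rw [T_apply, Dv_single, pderiv_Jn_ne hki, ih]
        rw [T_apply, Dv_single]
    rw [h, hf.2 _ ⟨k, hk, rfl⟩, map_zero]
  · rw [T_apply, Dv_single, pderiv_Jn]

/-- coefficients of iterated derivatives -/
theorem coeff_iter (k : σ) (n : ℕ) (s : σ →₀ ℕ) : ∃ c : K, c ≠ 0 ∧ ∀ f : MvPolynomial σ K,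
    coeff s ((T (Pi.single k (1 : K)) ^ n) f) = coeff (s + Finsupp.single k n) f * c := by
  induction n with
  | zero => exact ⟨1, one_ne_zero, fun f => by simp⟩
  | succ n ih =>
    obtain ⟨c, hc, h⟩ := ih
    refine ⟨((s + Finsupp.single k n : σ →₀ ℕ) k + 1 : K) * c,
      mul_ne_zero (Nat.cast_add_one_ne_zero _) hc, fun f => ?_⟩
    rw [pow_succ]
    change coeff s ((T (Pi.single k (1 : K)) ^ n) (T (Pi.single k (1 : K)) f)) = _
    rw [h, T_apply, Dv_single, coeff_pderiv, add_assoc, ← Finsupp.single_add, mul_assoc]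

/-- membership in terms of the coefficients -/
theorem mem_iff_coeff {A : ℕ} (k : σ) (f : MvPolynomial σ K) :
    (T (Pi.single k (1 : K)) ^ A) f = 0 ↔ ∀ s : σ →₀ ℕ, A ≤ s k → coeff s f = 0 := by
  constructor
  · intro h s hs
    obtain ⟨c, hc, hcf⟩ := coeff_iter (K := K) k A (s - Finsupp.single k A)
    have h1 := hcf f
    have h2 : s - Finsupp.single k A + Finsupp.single k A = s := by
      apply tsub_add_cancel_of_le
      rw [Finsupp.single_le_iff]
      exact hs
    rw [h, coeff_zero, h2] at h1
    rcases mul_eq_zero.mp h1.symm with h3 | h3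
    · exact h3
    · exact absurd h3 hc
  · intro h
    ext s
    obtain ⟨c, hc, hcf⟩ := coeff_iter (K := K) k A s
    rw [hcf f, h _ (by simp), zero_mul, coeff_zero]

/-- the raising operator -/
noncomputable def U (A : ℕ) (f : MvPolynomial σ K) : MvPolynomial σ K :=
  ∑ i, X i * (((A : K) - 1) • f - X i * pderiv i f)

theorem U_coeff (A : ℕ) (f : MvPolynomial σ K) (s : σ →₀ ℕ) : coeff s (U A f) =
    ∑ i, if s i = 0 then 0 else ((A : K) - s i) * coeff (s - Finsupp.single i 1) f := by
  unfold U
  rw [coeff_sum]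
  refine Finset.sum_congr rfl fun i _ => ?_
  rw [coeff_X_mul']
  by_cases h : s i = 0
  · rw [if_neg (by rw [Finsupp.notMem_support_iff]; exact h), if_pos h]
  · rw [if_pos (by rw [Finsupp.mem_support_iff]; exact h), if_neg h, coeff_sub, coeff_smul,
      coeff_X_mul']
    by_cases h1 : s i = 1
    · rw [if_neg (by rw [Finsupp.notMem_support_iff]; simp [h1]), h1, smul_eq_mul]
      push_cast
      ring
    · have h2 : (s - Finsupp.single i 1 : σ →₀ ℕ) i ≠ 0 := by
        simp only [Finsupp.tsub_apply, Finsupp.single_eq_same]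
        omega
      rw [if_pos (by rw [Finsupp.mem_support_iff]; exact h2), coeff_pderiv]
      have h3 : s - Finsupp.single i 1 - Finsupp.single i 1 + Finsupp.single i 1 =
          s - Finsupp.single i 1 := by
        apply tsub_add_cancel_of_le
        rw [Finsupp.single_le_iff]
        omega
      rw [h3]
      have h4 : ((s - Finsupp.single i 1 - Finsupp.single i 1 : σ →₀ ℕ) i : K) + 1 =
          (s i : K) - 1 := by
        simp only [Finsupp.tsub_apply, Finsupp.single_eq_same]
        have h5 : s i - 1 - 1 + 1 + 1 = s i := by omega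
        have h6 : ((s i - 1 - 1 + 1 + 1 : ℕ) : K) = (s i : K) := by rw [h5]
        push_cast at h6
        rw [← h6]
        ring
      rw [h4, smul_eq_mul]
      ring

theorem U_hom {A x : ℕ} {f : MvPolynomial σ K} (h : f.IsHomogeneous x) :
    (U A f).IsHomogeneous (x + 1) := by
  unfold U
  apply IsHomogeneous.sum
  intro i _
  rw [add_comm]
  apply (isHomogeneous_X K i).mul
  apply IsHomogeneous.sub
  · rw [smul_eq_C_mul]
    exact h.C_mul _
  · rcases Nat.eq_zero_or_pos x with rfl | hx
    · rw [← totalDegree_zero_iff_isHomogeneous, totalDegree_eq_zero_iff_eq_C] at h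
      rw [h, pderiv_C, mul_zero]
      exact isHomogeneous_zero _ _ _
    · have := (isHomogeneous_X K i).mul (h.pderiv (i := i))
      rwa [show 1 + (x - 1) = x by omega] at this

theorem U_mem {A x : ℕ} {f : MvPolynomial σ K} (hf : f ∈ V A (E Set.univ : Set (σ → K)) x) :
    U A f ∈ V A (E Set.univ : Set (σ → K)) (x + 1) := by
  refine ⟨U_hom hf.1, ?_⟩
  rintro _ ⟨k, -, rfl⟩
  have hc := (mem_iff_coeff k f).mp (hf.2 _ ⟨k, trivial, rfl⟩)
  rw [mem_iff_coeff]
  intro s hs
  rw [U_coeff]
  apply Finset.sum_eq_zero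
  intro i _
  split_ifs with h
  · rfl
  · by_cases hik : i = k
    · subst hik
      rcases hs.eq_or_lt with h1 | h1
      · rw [← h1, sub_self, zero_mul]
      · rw [hc, mul_zero]
        simp only [Finsupp.tsub_apply, Finsupp.single_eq_same]
        omega
    · rw [hc, mul_zero]
      simp only [Finsupp.tsub_apply, Finsupp.single_eq_of_ne (fun h => hik h.symm : k ≠ i)]
      omega

/-- the commutation relation -/
theorem comm_rel {A x : ℕ} {f : MvPolynomial σ K} (hf : f.IsHomogeneous x) :
    Dv (fun _ => 1) (U A f) = U A (Dv (fun _ => 1) f) +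
      ((Fintype.card σ : K) * ((A : K) - 1) - 2 * x) • f := by
  set D : Derivation K (MvPolynomial σ K) (MvPolynomial σ K) := Dv (fun _ => 1) with hD
  have hX : ∀ i, D (X i) = 1 := fun i => by rw [hD, Dv_X, map_one]
  have hcomm : ∀ i (g : MvPolynomial σ K), D (pderiv i g) = pderiv i (D g) := by
    intro i g
    rw [hD, ← Dv_single, Dv_comm]
  unfold U
  rw [map_sum]
  have h1 : ∀ i, D (X i * (((A : K) - 1) • f - X i * pderiv i f)) =
      X i * (((A : K) - 1) • D f - X i * pderiv i (D f)) + ((A : K) - 1) • f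
        - 2 * (X i * pderiv i f) := by
    intro i
    rw [Derivation.leibniz, map_sub, Derivation.map_smul, Derivation.leibniz, hX, hcomm]
    simp only [smul_eq_mul]
    ring
  simp only [h1]
  rw [Finset.sum_sub_distrib, Finset.sum_add_distrib, ← Finset.mul_sum, hf.sum_X_mul_pderiv,
    Finset.sum_const, Finset.card_univ]
  generalize (∑ i, X i * (((A : K) - 1) • D f - X i * pderiv i (D f))) = S
  simp only [smul_eq_C_mul, nsmul_eq_mul, map_sub, map_mul, map_natCast, map_one, map_ofNat]
  ring

theorem inj_aux {A : ℕ} (x : ℕ) (hx : 2 * x < Fintype.card σ * (A - 1)) (c : ℕ)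
    {f : MvPolynomial σ K} (hf : f.IsHomogeneous x)
    (h : Dv (fun _ => 1) (U A f) + (c : K) • f = 0) : f = 0 := by
  have hA : 1 ≤ A := by
    by_contra hA
    have : A = 0 := by omega
    subst this
    simp at hx
  induction x generalizing c f with
  | zero =>
    rw [comm_rel hf, Dv_hom0 hf] at h
    have e : U A (0 : MvPolynomial σ K) = 0 := by simp [U]
    rw [e, zero_add, ← add_smul] at h
    rcases smul_eq_zero.mp h with h1 | h1
    · exfalso
      have h2 : ((Fintype.card σ * (A - 1) + c : ℕ) : K) = 0 := by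
        push_cast [Nat.cast_sub hA]
        rw [← h1]
        push_cast
        ring
      rw [Nat.cast_eq_zero] at h2
      omega
    · exact h1
  | succ x ih =>
    rw [comm_rel hf, add_assoc, ← add_smul] at h
    set d : ℕ := Fintype.card σ * (A - 1) - 2 * (x + 1) + c with hd
    have hdc : (Fintype.card σ : K) * ((A : K) - 1) - 2 * ((x + 1 : ℕ) : K) + c = (d : K) := by
      have h9 : d + 2 * (x + 1) = Fintype.card σ * (A - 1) + c := by omega
      have h10 : ((d + 2 * (x + 1) : ℕ) : K) = ((Fintype.card σ * (A - 1) + c : ℕ) : K) := by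
        rw [h9]
      push_cast [Nat.cast_sub hA] at h10
      push_cast
      linear_combination -h10
    rw [hdc] at h
    have hd0 : (d : K) ≠ 0 := by
      rw [Nat.cast_ne_zero]
      omega
    have h2 := congrArg (Dv (fun _ => (1 : K))) h
    rw [map_add, Derivation.map_smul, map_zero] at h2
    have h3 := ih (by omega) d (Dv_hom hf) h2
    rw [h3] at h
    have e : U A (0 : MvPolynomial σ K) = 0 := by simp [U]
    rw [e, zero_add] at h
    exact (smul_eq_zero.mp h).resolve_left hd0

/-- linear version of `U` -/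
noncomputable def Ul (A : ℕ) : MvPolynomial σ K →ₗ[K] MvPolynomial σ K where
  toFun := U A
  map_add' f g := by
    unfold U
    rw [← Finset.sum_add_distrib]
    refine Finset.sum_congr rfl fun i _ => ?_
    rw [map_add, smul_add]
    ring
  map_smul' c f := by
    unfold U
    rw [RingHom.id_apply, Finset.smul_sum]
    refine Finset.sum_congr rfl fun i _ => ?_
    rw [Derivation.map_smul, smul_comm, mul_smul_comm, ← smul_sub, mul_smul_comm]

/-- weak Lefschetz -/
theorem surj_ones {A x : ℕ} (hx : 2 * x < Fintype.card σ * (A - 1)) :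
    ∀ f ∈ V A (E Set.univ : Set (σ → K)) x, ∃ g ∈ V A (E Set.univ : Set (σ → K)) (x + 1),
      T (fun _ => (1 : K)) g = f := by
  have hmap : ∀ f ∈ V A (E Set.univ : Set (σ → K)) x,
      (T (fun _ => (1 : K)) ∘ₗ Ul A) f ∈ V A (E Set.univ : Set (σ → K)) x := by
    intro f hf
    have := T_pow_mem (fun _ => (1 : K)) 1 (U_mem hf)
    rwa [pow_one] at this
  set L := (T (fun _ => (1 : K)) ∘ₗ Ul A).restrict hmap with hL
  have hinj : Function.Injective L := by
    rw [← LinearMap.ker_eq_bot, LinearMap.ker_eq_bot']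
    rintro ⟨f, hf⟩ h
    rw [hL, LinearMap.restrict_apply] at h
    have h2 := congrArg Subtype.val h
    change Dv (fun _ => (1 : K)) (U A f) = 0 at h2
    have : f = 0 := inj_aux x hx 0 hf.1 (by rw [h2]; simp)
    subst this
    rfl
  have hsurj : Function.Surjective L := LinearMap.surjective_of_injective hinj
  intro f hf
  obtain ⟨⟨g, hg⟩, hgf⟩ := hsurj ⟨f, hf⟩
  refine ⟨U A g, U_mem hg, ?_⟩
  have h2 := congrArg Subtype.val hgf
  exact h2

end Q41.FP
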