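import Pool.Agent.Q41.FP.Coord

/-! Dimension counts in seven variables. -/

set_option autoImplicit false
set_option linter.unusedSectionVars false

open MvPolynomial Module

namespace Q41.FP

variable {K : Type*} [Field K] [CharZero K]

/-- the first `j` coordinate directions -/
def F (K : Type*) [Field K] (j : ℕ) : Set (Fin 7 → K) := E {i : Fin 7 | i.val < j}

/-- the dimensions -/
noncomputable def dm (K : Type*) [Field K] (A j x : ℕ) : ℕ := finrank K (V A (F K j) x)

theorem F_succ {j : ℕ} (hj : j < 7) : F K (j + 1) = insert (Pi.single ⟨j, hj⟩ 1) (F K j) := by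
  ext v
  simp only [F, E, Set.mem_insert_iff, Set.mem_ofPred_eq]
  constructor
  · rintro ⟨i, hi, rfl⟩
    rcases Nat.lt_succ_iff_lt_or_eq.mp hi with h | h
    · exact Or.inr ⟨i, h, rfl⟩
    · left
      congr 1
      exact Fin.ext h
  · rintro (rfl | ⟨i, hi, rfl⟩)
    · exact ⟨⟨j, hj⟩, Nat.lt_succ_self j, rfl⟩
    · exact ⟨i, Nat.lt_succ_of_lt hi, rfl⟩

theorem F_zero : F K 0 = ∅ := by
  ext v
  simp [F, E]

theorem F_seven : F K 7 = E Set.univ := by
  unfold F
  congr 1
  ext i
  simp

theorem dm_rec (A : ℕ) {j : ℕ} (hj : j < 7) (x : ℕ) :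
    dm K A j (x + A) = dm K A j x + dm K A (j + 1) (x + A) := by
  unfold dm
  rw [F_succ hj]
  apply rn_eq
  apply surj_pow
  intro y _ _
  apply surj_coord
  simp

theorem dm_low {A x : ℕ} (h : x < A) (j : ℕ) : dm K A j x = dm K A 0 x := by
  unfold dm
  rw [V_low h, F_zero]

theorem dm_zero (A B x : ℕ) : dm K A 0 x = dm K B 0 x := by
  unfold dm
  rw [F_zero]
  have : V A (∅ : Set (Fin 7 → K)) x = V B ∅ x := by
    ext f
    simp [mem_V]
  rw [this]

theorem dm_one_zero : dm K 1 0 0 = 1 := by
  unfold dm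
  rw [F_zero]
  have h : V 1 (∅ : Set (Fin 7 → K)) 0 = K ∙ (1 : MvPolynomial (Fin 7) K) := by
    ext f
    rw [Submodule.mem_span_singleton, mem_V]
    constructor
    · rintro ⟨h, -⟩
      rw [← totalDegree_zero_iff_isHomogeneous, totalDegree_eq_zero_iff_eq_C] at h
      exact ⟨coeff 0 f, by rw [smul_eq_C_mul, mul_one]; exact h.symm⟩
    · rintro ⟨c, rfl⟩
      refine ⟨?_, fun q hq => absurd hq (Set.notMem_empty q)⟩
      rw [smul_eq_C_mul, mul_one]
      exact isHomogeneous_C _ _
  rw [h]
  exact finrank_span_singleton one_ne_zero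

theorem dm_one_seven (x : ℕ) : dm K 1 7 (x + 1) = 0 := by
  unfold dm
  rw [F_seven]
  have h : V 1 (E Set.univ : Set (Fin 7 → K)) (x + 1) = ⊥ := by
    rw [eq_bot_iff]
    intro f hf
    rw [Submodule.mem_bot]
    ext s
    rw [coeff_zero]
    by_cases hs : ∃ i, 1 ≤ s i
    · obtain ⟨i, hi⟩ := hs
      exact (mem_iff_coeff i f).mp (hf.2 _ ⟨i, trivial, rfl⟩) s hi
    · push Not at hs
      have h0 : s = 0 := by
        ext i
        have := hs i
        simp only [Finsupp.coe_zero, Pi.zero_apply]
        omega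
      subst h0
      by_contra hne
      have h1 := hf.1 hne
      simp at h1
  rw [h]
  exact finrank_bot K _

theorem dm_binom (k : ℕ) (hk : k ≤ 6) (x : ℕ) : dm K 1 (6 - k) x = (x + k).choose k := by
  induction k generalizing x with
  | zero =>
    induction x with
    | zero => rw [dm_low one_pos, dm_one_zero]; simp
    | succ x ih =>
      have h := dm_rec (K := K) 1 (j := 6) (by norm_num) x
      have h7 := dm_one_seven (K := K) x
      simp only [Nat.sub_zero, Nat.choose_zero_right] at ih ⊢
      rw [h7] at h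
      omega
  | succ k ihk =>
    have ihk := ihk (by omega)
    induction x with
    | zero => rw [dm_low one_pos, dm_one_zero]; simp
    | succ x ih =>
      have h := dm_rec (K := K) 1 (j := 6 - (k + 1)) (by omega) x
      rw [show 6 - (k + 1) + 1 = 6 - k by omega, ihk (x + 1), ih] at h
      rw [h]
      have e1 : x + 1 + (k + 1) = (x + 1 + k) + 1 := by ring
      have e2 : x + (k + 1) = x + 1 + k := by ring
      rw [e1, Nat.choose_succ_succ, e2]
      ring

theorem dm_full (A x : ℕ) : dm K A 0 x = (x + 6).choose 6 := by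
  rw [dm_zero A 1]
  exact dm_binom 6 le_rfl x

/-- the eighth point -/
theorem eight {A x : ℕ} (hx : 2 * (x + A - 1) < 7 * (A - 1)) :
    finrank K (V A (insert (fun _ => (1 : K)) (F K 7)) (x + A)) + dm K A 7 x =
      dm K A 7 (x + A) := by
  have h := rn_eq (K := K) (A := A) (P := F K 7) (x := x) (q := fun _ => (1 : K)) (by
    apply surj_pow
    intro y h1 h2
    rw [F_seven]
    apply surj_ones
    rw [Fintype.card_fin]
    omega)
  unfold dm
  omega

theorem c193 : (187 + 6).choose 6 = 66364016544 := by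
  rw [Nat.choose_eq_descFactorial_div_factorial]
  norm_num [Nat.descFactorial, Nat.factorial]

theorem c136 : (130 + 6).choose 6 = 7858539612 := by
  rw [Nat.choose_eq_descFactorial_div_factorial]
  norm_num [Nat.descFactorial, Nat.factorial]

theorem c79 : (73 + 6).choose 6 = 277962685 := by
  rw [Nat.choose_eq_descFactorial_div_factorial]
  norm_num [Nat.descFactorial, Nat.factorial]

theorem c22 : (16 + 6).choose 6 = 74613 := by
  rw [Nat.choose_eq_descFactorial_div_factorial]
  norm_num [Nat.descFactorial, Nat.factorial]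

/-- the space of the forms of degree 187 is not zero -/
theorem pos_finrank (q9 q10 : Fin 7 → K) :
    0 < finrank K (V 57 (insert q10 (insert q9 (insert (fun _ => (1 : K)) (F K 7)))) 187) := by
  set P8 : Set (Fin 7 → K) := insert (fun _ => (1 : K)) (F K 7) with hP8
  have f187 := dm_full (K := K) 57 187
  have f130 := dm_full (K := K) 57 130
  have f73 := dm_full (K := K) 57 73
  have f16 := dm_full (K := K) 57 16
  rw [c193] at f187
  rw [c136] at f130
  rw [c79] at f73
  rw [c22] at f16
  have r187 : ∀ j, j < 7 → dm K 57 j 187 = dm K 57 j 130 + dm K 57 (j + 1) 187 := fun j hj =>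
    dm_rec 57 hj 130
  have r130 : ∀ j, j < 7 → dm K 57 j 130 = dm K 57 j 73 + dm K 57 (j + 1) 130 := fun j hj =>
    dm_rec 57 hj 73
  have r73 : ∀ j, j < 7 → dm K 57 j 73 = dm K 57 j 16 + dm K 57 (j + 1) 73 := fun j hj =>
    dm_rec 57 hj 16
  have r16 : ∀ j, dm K 57 j 16 = 74613 := fun j => by rw [dm_low (by norm_num) j, f16]
  have e8 : finrank K (V 57 P8 130) + dm K 57 7 73 = dm K 57 7 130 :=
    eight (A := 57) (x := 73) (by norm_num)
  have s7 : dm K 57 7 187 ≤ dm K 57 7 130 + finrank K (V 57 P8 187) :=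
    rn_le (A := 57) (x := 130) (P := F K 7)
  have s8 : finrank K (V 57 P8 187) ≤ finrank K (V 57 P8 130) +
      finrank K (V 57 (insert q9 P8) 187) := rn_le (A := 57) (x := 130) (P := P8)
  have s9 : finrank K (V 57 (insert q9 P8) 187) ≤ finrank K (V 57 (insert q9 P8) 130) +
      finrank K (V 57 (insert q10 (insert q9 P8)) 187) :=
    rn_le (A := 57) (x := 130) (P := insert q9 P8)
  have m9 : finrank K (V 57 (insert q9 P8) 130) ≤ finrank K (V 57 P8 130) :=
    Submodule.finrank_mono (V_anti (Set.subset_insert _ _))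
  have a0 := r187 0 (by norm_num)
  have a1 := r187 1 (by norm_num)
  have a2 := r187 2 (by norm_num)
  have a3 := r187 3 (by norm_num)
  have a4 := r187 4 (by norm_num)
  have a5 := r187 5 (by norm_num)
  have a6 := r187 6 (by norm_num)
  have b0 := r130 0 (by norm_num)
  have b1 := r130 1 (by norm_num)
  have b2 := r130 2 (by norm_num)
  have b3 := r130 3 (by norm_num)
  have b4 := r130 4 (by norm_num)
  have b5 := r130 5 (by norm_num)
  have b6 := r130 6 (by norm_num)
  have c0 := r73 0 (by norm_num)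
  have c1 := r73 1 (by norm_num)
  have c2 := r73 2 (by norm_num)
  have c3 := r73 3 (by norm_num)
  have c4 := r73 4 (by norm_num)
  have c5 := r73 5 (by norm_num)
  have c6 := r73 6 (by norm_num)
  simp only [r16, Nat.reduceAdd] at *
  omega

theorem exists_form (q9 q10 : Fin 7 → K) : ∃ f : MvPolynomial (Fin 7) K, f ≠ 0 ∧
    f.IsHomogeneous 187 ∧ (∀ i, (T (Pi.single i (1 : K)) ^ 57) f = 0) ∧
    (T (fun _ => (1 : K)) ^ 57) f = 0 ∧ (T q9 ^ 57) f = 0 ∧ (T q10 ^ 57) f = 0 := by
  have h := pos_finrank (K := K) q9 q10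
  have hne : V 57 (insert q10 (insert q9 (insert (fun _ => (1 : K)) (F K 7)))) 187 ≠ ⊥ := by
    intro h0
    rw [h0, finrank_bot] at h
    exact lt_irrefl _ h
  obtain ⟨f, hf, hf0⟩ := (Submodule.ne_bot_iff _).mp hne
  refine ⟨f, hf0, hf.1, fun i => hf.2 _ ?_, hf.2 _ ?_, hf.2 _ ?_, hf.2 _ ?_⟩
  · right; right; right
    exact ⟨i, i.isLt, rfl⟩
  · right; right; left; rfl
  · right; left; rfl
  · left; rfl

end Q41.FP
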