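import Pool.Agent.Q41.FP.Mult

/-! The effective classes on blow-ups of projective spaces. -/

set_option autoImplicit false
set_option linter.unusedSectionVars false

open MvPolynomial

namespace Q41.FP

variable {K : Type*} [Field K] [CharZero K]

theorem T_smul {σ : Type*} [Fintype σ] [DecidableEq σ] (a : K) (v : σ → K) :
    T (a • v) = a • T v := by
  refine LinearMap.ext fun f => ?_
  rw [LinearMap.smul_apply, T_apply, T_apply, Dv_eq, Dv_eq,
    Finset.smul_sum]
  refine Finset.sum_congr rfl fun i _ => ?_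
  rw [Pi.smul_apply, smul_assoc]

theorem T_smul_pow {σ : Type*} [Fintype σ] [DecidableEq σ] (a : K) (v : σ → K) (A : ℕ)
    {f : MvPolynomial σ K} (h : (T v ^ A) f = 0) : (T (a • v) ^ A) f = 0 := by
  rw [T_smul, smul_pow, LinearMap.smul_apply, h, smul_zero]

/-- the projection to the 7-dimensional space -/
theorem exists_proj {n : ℕ} (hn : 6 ≤ n) {p : Fin (n + 4) → Fin (n + 1) → K}
    (hp : ∀ S : Finset (Fin (n + 4)), S.card = n + 1 → LinearIndependent K fun i : S => p i) : ∃ π : (Fin (n + 1) → K) →ₗ[K] (Fin 7 → K),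
    Function.Surjective π ∧ (∀ i : Fin (n + 4), ∀ h : i.val < 7, ∃ a : K,
      π (p i) = a • Pi.single ⟨i.val, h⟩ 1) ∧
    (∀ i : Fin (n + 4), i.val = 7 → π (p i) = fun _ => 1) ∧
    (∀ i : Fin (n + 4), 10 ≤ i.val → π (p i) = 0) := by
  classical
  set S : Finset (Fin (n + 4)) := Finset.univ.filter fun i => i.val < 7 ∨ 10 ≤ i.val with hS
  have i7 : Fin (n + 4) := ⟨7, by omega⟩
  set i7 : Fin (n + 4) := ⟨7, by omega⟩ with hi7
  set i8 : Fin (n + 4) := ⟨8, by omega⟩ with hi8
  set i9 : Fin (n + 4) := ⟨9, by omega⟩ with hi9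
  have hSc : Sᶜ = {i7, i8, i9} := by
    ext i
    simp only [hS, Finset.mem_compl, Finset.mem_filter, Finset.mem_univ, true_and,
      Finset.mem_insert, Finset.mem_singleton, hi7, hi8, hi9, Fin.ext_iff]
    omega
  have hcard : S.card = n + 1 := by
    have h1 := Finset.card_compl S
    rw [hSc, Fintype.card_fin] at h1
    have h2 : ({i7, i8, i9} : Finset (Fin (n + 4))).card = 3 := by
      rw [Finset.card_eq_three]
      refine ⟨i7, i8, i9, ?_, ?_, ?_, rfl⟩ <;> simp [hi7, hi8, hi9, Fin.ext_iff]
    have h3 : S.card ≤ n + 4 := by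
      have := Finset.card_le_univ S
      rwa [Fintype.card_fin] at this
    omega
  have hli := hp S hcard
  have hcard2 : Fintype.card S = Module.finrank K (Fin (n + 1) → K) := by
    rw [Fintype.card_coe, hcard, Module.finrank_fin_fun]
  have : Nonempty S := ⟨⟨⟨0, by omega⟩, by simp [hS]⟩⟩
  set b := basisOfLinearIndependentOfCardEqFinrank hli hcard2 with hb
  have hbp : ∀ s : S, b s = p s := fun s => by
    rw [hb, coe_basisOfLinearIndependentOfCardEqFinrank]
  set c := b.repr (p i7) with hc
  have h7S : i7 ∉ S := by simp [hS, hi7]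
  have hexp : ∑ s : S, c s • p s = p i7 := by
    have := b.sum_repr (p i7)
    simp only [hbp] at this
    exact this
  have hcne : ∀ s : S, c s ≠ 0 := by
    intro s hs
    have hcard' : (insert i7 (S.erase s)).card = n + 1 := by
      rw [Finset.card_insert_of_notMem (fun h => h7S (Finset.mem_of_mem_erase h)),
        Finset.card_erase_of_mem s.2, hcard]
      omega
    have hli' := hp _ hcard'
    rw [linearIndependent_iff_notMem_span] at hli'
    apply hli' ⟨i7, Finset.mem_insert_self _ _⟩
    change p i7 ∈ _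
    rw [← hexp]
    apply Submodule.sum_mem
    intro t _
    by_cases hts : t = s
    · rw [hts, hs, zero_smul]
      exact Submodule.zero_mem _
    · apply Submodule.smul_mem
      apply Submodule.subset_span
      refine ⟨⟨t.1, Finset.mem_insert_of_mem (Finset.mem_erase.mpr
        ⟨fun h => hts (Subtype.ext h), t.2⟩)⟩, ?_, rfl⟩
      simp only [Set.mem_sdiff, Set.mem_univ, Set.mem_singleton_iff, true_and]
      intro h
      have h2 := congrArg Subtype.val h
      change t.1 = i7 at h2
      exact h7S (h2 ▸ t.2)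
  set w : S → (Fin 7 → K) := fun s =>
    if h : s.1.val < 7 then (c s)⁻¹ • Pi.single ⟨s.1.val, h⟩ 1 else 0 with hw
  set π := b.constr K w with hπ
  have hπb : ∀ s : S, π (p s) = w s := fun s => by
    rw [← hbp, hπ, Module.Basis.constr_basis]
  refine ⟨π, ?_, ?_, ?_, ?_⟩
  · intro y
    refine ⟨∑ k : Fin 7, (y k * c ⟨⟨k.val, by omega⟩, by simp [hS, k.isLt]⟩) •
      p ⟨k.val, by omega⟩, ?_⟩
    rw [map_sum]
    have h1 : ∀ k : Fin 7, π ((y k * c ⟨⟨k.val, by omega⟩, by simp [hS, k.isLt]⟩) •
      p ⟨k.val, by omega⟩) = Pi.single k (y k) := by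
      intro k
      have h2 := hπb ⟨⟨k.val, by omega⟩, by simp [hS, k.isLt]⟩
      have h3 := hcne ⟨⟨k.val, by omega⟩, by simp [hS, k.isLt]⟩
      rw [map_smul, h2, hw]
      simp only [k.isLt, dif_pos, Fin.eta]
      rw [smul_smul, mul_assoc, mul_inv_cancel₀ h3, mul_one, ← Pi.single_smul, smul_eq_mul,
        mul_one]
    simp only [h1]
    exact Finset.univ_sum_single y
  · intro i hi
    have h2 := hπb ⟨i, by simp [hS, hi]⟩
    refine ⟨(c ⟨i, by simp [hS, hi]⟩)⁻¹, ?_⟩
    rw [h2, hw]
    simp only [hi, dif_pos]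
  · intro i hi
    have hi' : i = i7 := Fin.ext hi
    rw [hi', ← hexp, map_sum]
    ext k
    rw [Finset.sum_apply]
    rw [Finset.sum_eq_single (⟨⟨k.val, by omega⟩, by simp [hS, k.isLt]⟩ : S)]
    · have h3 := hcne ⟨⟨k.val, by omega⟩, by simp [hS, k.isLt]⟩
      rw [map_smul, hπb, hw]
      simp only [k.isLt, dif_pos, Fin.eta, Pi.smul_apply, Pi.single_eq_same, smul_eq_mul, mul_one]
      exact mul_inv_cancel₀ h3
    · intro s _ hs
      rw [map_smul, hπb, hw]
      by_cases h : s.1.val < 7
      · simp only [h, dif_pos, Pi.smul_apply, smul_eq_mul]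
        rw [Pi.single_eq_of_ne]
        · ring
        · intro h4
          apply hs
          apply Subtype.ext
          apply Fin.ext
          exact (congrArg Fin.val h4).symm
      · simp only [h, dif_neg, not_false_iff, Pi.smul_apply, Pi.zero_apply, smul_zero]
    · intro h
      exact absurd (Finset.mem_univ _) h
  · intro i hi
    have h2 := hπb ⟨i, by simp [hS, hi]⟩
    rw [h2, hw]
    have : ¬ i.val < 7 := by omega
    simp only [this, dif_neg, not_false_iff]

theorem main {n : ℕ} (hn : 6 ≤ n) {p : Fin (n + 4) → Fin (n + 1) → K}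
    (hp : ∀ S : Finset (Fin (n + 4)), S.card = n + 1 → LinearIndependent K fun i : S => p i) :
    ∃ F : MvPolynomial (Fin (n + 1)) K, F ≠ 0 ∧ F.IsHomogeneous 187 ∧
      ∀ (i : Fin (n + 4)) (l : List (Fin (n + 1))), l.length < (if i.val < 10 then 131 else 187) →
        eval (p i) (l.foldr (fun i G => pderiv i G) F) = 0 := by
  obtain ⟨π, hsurj, hlow, h7, hhigh⟩ := exists_proj hn hp
  set M : Fin 7 → Fin (n + 1) → K := fun k l => π (Pi.single l 1) k with hM
  have hlin : ∀ q, lin M q = π q := by
    intro q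
    ext k
    rw [LinearMap.pi_apply_eq_sum_univ π q]
    unfold lin
    rw [Finset.sum_apply]
    refine Finset.sum_congr rfl fun l _ => ?_
    rw [Pi.smul_apply, smul_eq_mul, mul_comm]
    have : (Pi.single l 1 : Fin (n + 1) → K) = fun j => if l = j then 1 else 0 := by
      ext j
      rw [Pi.single_apply]
      simp only [eq_comm]
    rw [← this]
  have l8 : 8 < n + 4 := by omega
  have l9 : 9 < n + 4 := by omega
  obtain ⟨f, hf0, hfh, hE, h1, h8, h9⟩ := exists_form (K := K) (π (p ⟨8, l8⟩)) (π (p ⟨9, l9⟩))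
  refine ⟨comp M f, comp_ne M (fun y => ?_) hf0, comp_hom M hfh, ?_⟩
  · obtain ⟨x, hx⟩ := hsurj y
    exact ⟨x, by rw [hlin, hx]⟩
  · intro i l hl
    rw [foldr_comp, eval_comp, hlin]
    by_cases hi : i.val < 10
    · have hkill : (T (π (p i)) ^ 57) f = 0 := by
        rcases Nat.lt_or_ge i.val 7 with h | h
        · obtain ⟨a, ha⟩ := hlow i h
          rw [ha]
          exact T_smul_pow a _ 57 (hE _)
        · have h' : i.val = 7 ∨ i.val = 8 ∨ i.val = 9 := by omega
          rcases h' with h' | h' | h'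
          · rw [h7 i h']
            exact h1
          · have h10 : p i = p ⟨8, l8⟩ := congrArg p (Fin.ext h')
            rw [h10]
            exact h8
          · have h10 : p i = p ⟨9, l9⟩ := congrArg p (Fin.ext h')
            rw [h10]
            exact h9
      apply mult_of_kill hfh hkill
      rw [List.length_map]
      simp only [hi, if_pos] at hl
      omega
    · rw [hhigh i (by omega)]
      have hkill : (T (0 : Fin 7 → K) ^ 1) f = 0 := by
        have := T_smul_pow (σ := Fin 7) 0 0 1 (f := f)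
        rw [pow_one, T_apply, Dv_eq]
        simp
      apply mult_of_kill hfh hkill
      rw [List.length_map]
      simp only [hi, if_neg, not_false_iff] at hl
      omega


end Q41.FP
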