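import Pool.Agent.Q41.FP.Count

/-! Multiplicities, and pulling back along a linear projection. -/

set_option autoImplicit false
set_option linter.unusedSectionVars false

open MvPolynomial Module

namespace Q41.FP

variable {K : Type*} [Field K] [CharZero K] {σ : Type*} [Fintype σ] [DecidableEq σ]

/-- iterated directional derivative along a list of directions -/
noncomputable def DL (l : List (σ → K)) (f : MvPolynomial σ K) : MvPolynomial σ K :=
  l.foldr (fun v g => T v g) f

theorem euler_pt {r : ℕ} {G : MvPolynomial σ K} (h : G.IsHomogeneous r) (q : σ → K) :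
    eval q (T q G) = r * eval q G := by
  have h2 := congrArg (eval q) h.sum_X_mul_pderiv
  rw [map_sum, map_nsmul] at h2
  rw [T_apply, Dv_eq, map_sum]
  simp only [smul_eval, map_mul, eval_X] at h2 ⊢
  rw [h2, nsmul_eq_mul]

theorem euler_pow (r : ℕ) {G : MvPolynomial σ K} (h : G.IsHomogeneous r) (q : σ → K) :
    eval q ((T q ^ r) G) = r.factorial * eval q G := by
  induction r generalizing G with
  | zero => simp
  | succ r ih =>
    rw [pow_succ]
    change eval q ((T q ^ r) (T q G)) = _
    rw [ih (G := T q G) (Dv_hom h), euler_pt h, Nat.factorial_succ]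
    push_cast
    ring

theorem eval_zero_of {r A : ℕ} (hA : A ≤ r) {G : MvPolynomial σ K} (h : G.IsHomogeneous r)
    {q : σ → K} (hG : (T q ^ A) G = 0) : eval q G = 0 := by
  have h1 := euler_pow r h q
  obtain ⟨s, rfl⟩ := Nat.exists_eq_add_of_le hA
  rw [add_comm A s, pow_add] at h1
  change eval q ((T q ^ s) ((T q ^ A) G)) = _ at h1
  rw [hG, map_zero, map_zero] at h1
  rcases mul_eq_zero.mp h1.symm with h2 | h2
  · exact absurd h2 (by exact_mod_cast Nat.factorial_ne_zero _)
  · exact h2

theorem DL_hom (l : List (σ → K)) {r : ℕ} {f : MvPolynomial σ K}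
    (h : f.IsHomogeneous (r + l.length)) : (DL l f).IsHomogeneous r := by
  induction l generalizing r with
  | nil => simpa [DL] using h
  | cons v l ih =>
    have := ih (r := r + 1) (by simpa [add_assoc, add_comm 1] using h)
    exact Dv_hom this

theorem DL_comm (l : List (σ → K)) (q : σ → K) (A : ℕ) (f : MvPolynomial σ K) :
    (T q ^ A) (DL l f) = DL l ((T q ^ A) f) := by
  induction l with
  | nil => rfl
  | cons v l ih =>
    change (T q ^ A) (T v (DL l f)) = T v (DL l ((T q ^ A) f))
    rw [← ih]
    have h := congrArg (fun L : MvPolynomial σ K →ₗ[K] MvPolynomial σ K => L (DL l f))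
      ((T_comm q v).pow_left A).eq
    exact h

theorem DL_zero (l : List (σ → K)) : DL l (0 : MvPolynomial σ K) = 0 := by
  induction l with
  | nil => rfl
  | cons v l ih =>
    change T v (DL l 0) = 0
    rw [ih, map_zero]

/-- the multiplicity of a form killed by the `A`-th power of the derivative -/
theorem mult_of_kill {d A : ℕ} {f : MvPolynomial σ K} (hf : f.IsHomogeneous d) {q : σ → K}
    (hq : (T q ^ A) f = 0) (l : List (σ → K)) (hl : l.length + A ≤ d) :
    eval q (DL l f) = 0 := by
  obtain ⟨r, hr⟩ := Nat.exists_eq_add_of_le (show l.length ≤ d by omega)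
  have hh : (DL l f).IsHomogeneous r := by
    apply DL_hom
    rwa [hr, add_comm] at hf
  exact eval_zero_of (A := A) (by omega) hh (by rw [DL_comm, hq, DL_zero])

variable {τ : Type*} [Fintype τ] [DecidableEq τ]

/-- composition with the linear map with matrix `M` -/
noncomputable def comp (M : σ → τ → K) : MvPolynomial σ K →ₐ[K] MvPolynomial τ K :=
  aeval fun k => ∑ l, C (M k l) * X l

/-- the linear map -/
def lin (M : σ → τ → K) (p : τ → K) : σ → K := fun k => ∑ l, M k l * p l

theorem eval_comp (M : σ → τ → K) (p : τ → K) (f : MvPolynomial σ K) :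
    eval p (comp M f) = eval (lin M p) f := by
  unfold comp
  induction f using MvPolynomial.induction_on with
  | C a => simp
  | add f g hf hg => simp only [map_add, hf, hg]
  | mul_X f i hf =>
    simp only [map_mul, hf, aeval_X, eval_X, map_sum, eval_C]
    rfl

theorem pderiv_comp (M : σ → τ → K) (l : τ) (f : MvPolynomial σ K) :
    pderiv l (comp M f) = comp M (T (fun k => M k l) f) := by
  induction f using MvPolynomial.induction_on with
  | C a =>
    have h1 : comp M (C a) = C a := by simp [comp]
    rw [h1, pderiv_C, T_apply, derivation_C, map_zero]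
  | add f g hf hg => simp only [map_add, hf, hg]
  | mul_X f i hf =>
    have h1 : pderiv l (comp M (X i)) = C (M i l) := by
      unfold comp
      rw [aeval_X, map_sum, Finset.sum_eq_single l]
      · rw [pderiv_C_mul, pderiv_X_self, mul_one]
      · intro j _ hj
        rw [pderiv_C_mul, pderiv_X_of_ne hj, mul_zero]
      · intro h
        exact absurd (Finset.mem_univ l) h
    have h2 : comp M (C (M i l)) = C (M i l) := by simp [comp]
    rw [map_mul, Derivation.leibniz, h1, hf]
    rw [T_apply, T_apply, Derivation.leibniz, Dv_X, map_add]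
    simp only [smul_eq_mul, map_mul, h2]

theorem comp_hom (M : σ → τ → K) {d : ℕ} {f : MvPolynomial σ K} (h : f.IsHomogeneous d) :
    (comp M f).IsHomogeneous d := by
  have := h.eval₂ (algebraMap K (MvPolynomial τ K)) (fun k => ∑ l, C (M k l) * X l)
    (n := 1) (fun r => by
      rw [MvPolynomial.algebraMap_eq]
      exact isHomogeneous_C _ _) (fun k => by
      apply IsHomogeneous.sum
      intro l _
      have := (isHomogeneous_C τ (M k l)).mul (isHomogeneous_X K l)
      simpa using this)
  rw [one_mul] at this
  exact this

/-- iterated partial derivatives of the composition -/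
theorem foldr_comp (M : σ → τ → K) (l : List τ) (f : MvPolynomial σ K) :
    l.foldr (fun i g => pderiv i g) (comp M f) = comp M (DL (l.map fun i k => M k i) f) := by
  induction l with
  | nil => rfl
  | cons i l ih =>
    rw [List.foldr_cons, ih, pderiv_comp]
    rfl

theorem comp_ne (M : σ → τ → K) (hs : Function.Surjective (lin M)) {f : MvPolynomial σ K}
    (hf : f ≠ 0) : comp M f ≠ 0 := by
  intro h
  apply hf
  apply MvPolynomial.funext
  intro y
  obtain ⟨p, rfl⟩ := hs y
  rw [← eval_comp, h, map_zero, map_zero]

end Q41.FP
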